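import Pool.Agent.Helper79.QP.Fin
import Pool.Agent.Helper79.FE.Asm

set_option autoImplicit false

/-!
# The relative theorem over number fields
-/

namespace Pool.Agent.Helper79.QP

open scoped WithZero
open Polynomial IntermediateField Module
open Pool.Agent.TH826.MK (KQ symb KQ.map KQ.map_symb unitPart)
open Pool.Agent.Helper537_Sym
open Pool.Agent.Helper79.FE (VN exists_zero finite_zeros fin_adj val_alg supp_finite tame_tors unitPart_swap
  sy_tors_right fin_of_ker unram_map finite_desc)
open Pool.Agent.Helper79.BT (kmap_comp inj_alg)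

universe u

theorem sy_prod_left {L ι : Type*} [Field L] (s : Finset ι) (a : ι → Lˣ) (b : Lˣ) :
    sy (∏ i ∈ s, a i) b = ∑ i ∈ s, sy (a i) b := by
  classical
  induction s using Finset.induction_on with
  | empty => rw [Finset.prod_empty, Finset.sum_empty, sy_one_left]
  | insert i s hi ih => rw [Finset.prod_insert hi, Finset.sum_insert hi, sy_mul_left, ih]

theorem sy_tors_left {L : Type*} [Field L] (a b : Lˣ) (n : ℕ) (hn : 0 < n) (ha : a ^ n = 1) : sy a b = 0 := by
  rw [sy_swap, sy_tors_right b a n hn ha, neg_zero]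

variable {K : Type*} {k F : Type*} {L M : Type u} [Field K] [NumberField K] [Field k] [Algebra K k] [Field F]
  [Field L] [Field M] [Algebra k F] [Algebra k L] [Algebra F L]
  [Algebra k M] [Algebra F M] [Algebra L M] [IsScalarTower k F L] [IsScalarTower k L M] [IsScalarTower F L M]
  [IsScalarTower k F M]

theorem norm_mem [FiniteDimensional F M] [IsGalois F M] [Fintype (M ≃ₐ[F] M)] (f : Mˣ) : ∃ c : Fˣ,
    up F M c = ∏ σ : M ≃ₐ[F] M, Units.map (σ : M →* M) f := by
  classical
  have h1 : ((∏ σ : M ≃ₐ[F] M, Units.map (σ : M →* M) f : Mˣ) : M) ∈ (⊥ : IntermediateField F M) := by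
    rw [IsGalois.mem_bot_iff_fixed]
    intro τ
    rw [Units.coe_prod, map_prod]
    refine Fintype.prod_equiv (Equiv.mulLeft τ) _ _ fun σ => ?_
    simp
  obtain ⟨c, hc⟩ := IntermediateField.mem_bot.1 h1
  have hc0 : c ≠ 0 := by
    rintro rfl
    rw [map_zero] at hc
    exact (Units.ne_zero _) hc.symm
  exact ⟨Units.mk0 c hc0, Units.ext hc⟩

theorem rel_aux (hk : ∀ x : k, ∃ (n : ℕ) (ζ : AlgebraicClosure k), 0 < n ∧ ζ ^ n = 1 ∧
      algebraMap k (AlgebraicClosure k) x ∈ IntermediateField.adjoin K {ζ})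
    (hcl : ∀ x : L, IsAlgebraic k x → ∃ c : k, algebraMap k L c = x) [FiniteDimensional F M] [IsGalois F M] (X : M)
    (hX : Transcendental k X) [FiniteDimensional k⟮X⟯ M] [Algebra.IsAlgebraic L M] (f : Lˣ) :
    FiniteDimensional ℚ ↥(((Submodule.span ℚ (Set.range fun u : Fˣ => sy f (up F L u)) ⊔
      LinearMap.range (KQ.map 2 (algebraMap F L))) ⊓ ⨅ v ∈ VN k L, unitPart v 2).map
        (LinearMap.range (KQ.map 2 (algebraMap F L))).mkQ) := by
  classical
  have : Fintype (M ≃ₐ[F] M) := Fintype.ofFinite _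
  have : CharZero k := charZero_of_injective_algebraMap (algebraMap K k).injective
  have : CharZero M := charZero_of_injective_algebraMap (algebraMap k M).injective
  set fM := up L M f with hfM
  set R := LinearMap.range (KQ.map 2 (algebraMap F L)) with hR
  set RM := LinearMap.range (KQ.map 2 (algebraMap F M)) with hRM
  obtain ⟨Nf, hNf⟩ := norm_mem (F := F) fM
  have hprod : ∏ σ : M ≃ₐ[F] M, gg fM σ = up F M Nf * (fM ^ (Fintype.card (M ≃ₐ[F] M)))⁻¹ := by
    rw [hNf]
    simp only [gg, Finset.prod_mul_distrib, Finset.prod_const, Finset.card_univ, inv_pow]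
  have hcard : ((Fintype.card (M ≃ₐ[F] M) : ℕ) : ℚ) ≠ 0 := by exact_mod_cast Fintype.card_ne_zero
  -- the average
  have havg : ∀ u : Fˣ, ((Fintype.card (M ≃ₐ[F] M) : ℕ) : ℚ) • sy fM (up F M u) =
      sy (up F M Nf) (up F M u) - ∑ σ : M ≃ₐ[F] M, sy (gg fM σ) (up F M u) := by
    intro u
    rw [← sy_prod_left, hprod, sy_mul_left, sy_inv_left, sy_pow_left]
    abel
  have hNR : ∀ u : Fˣ, sy (up F M Nf) (up F M u) ∈ RM := by
    intro u
    exact ⟨sy Nf u, by
      show KQ.map 2 (algebraMap F M) (symb ![Nf, u]) = _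
      rw [map_sy]
      rfl⟩
  by_cases hall : ∀ σ : M ≃ₐ[F] M, IsAlgebraic k (gg fM σ : M)
  · -- a power of `f` is in `F`
    have h1 : IsAlgebraic k ((∏ σ : M ≃ₐ[F] M, gg fM σ : Mˣ) : M) := by
      rw [Units.coe_prod]
      exact Finset.prod_induction _ (IsAlgebraic k) (fun _ _ ha hb => ha.mul hb) isAlgebraic_one
        (fun σ _ => hall σ)
    set n := Fintype.card (M ≃ₐ[F] M) with hn
    have hn0 : 0 < n := Fintype.card_pos
    have h2 : ((∏ σ : M ≃ₐ[F] M, gg fM σ : Mˣ) : M) = algebraMap L M (algebraMap F L Nf * ((f : L) ^ n)⁻¹) := by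
      rw [hprod, map_mul, map_inv₀, map_pow, ← IsScalarTower.algebraMap_apply]
      simp [up]
      rfl
    rw [h2] at h1
    obtain ⟨c, hc⟩ := hcl _ ((isAlgebraic_algebraMap_iff (algebraMap L M).injective).1 h1)
    have hc0 : c ≠ 0 := by
      rintro rfl
      rw [map_zero] at hc
      refine mul_ne_zero ?_ (inv_ne_zero (pow_ne_zero n f.ne_zero)) hc.symm
      rw [Ne, map_eq_zero]
      exact Nf.ne_zero
    have hfn : (f : L) ^ n = algebraMap F L ((Nf : F) * (algebraMap k F c)⁻¹) := by
      rw [map_mul, map_inv₀, ← IsScalarTower.algebraMap_apply, hc, mul_inv, inv_inv, ← mul_assoc, mul_inv_cancel₀,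
        one_mul]
      rw [Ne, map_eq_zero]
      exact Nf.ne_zero
    have hle : Submodule.span ℚ (Set.range fun u : Fˣ => sy f (up F L u)) ≤ R := by
      rw [Submodule.span_le]
      rintro _ ⟨u, rfl⟩
      have hc1 : (Nf : F) * (algebraMap k F c)⁻¹ ≠ 0 := by
        refine mul_ne_zero Nf.ne_zero (inv_ne_zero ?_)
        rw [Ne, map_eq_zero]
        exact hc0
      have h1 : sy (f ^ n) (up F L u) ∈ R := by
        refine ⟨sy (Units.mk0 _ hc1) u, ?_⟩
        show KQ.map 2 (algebraMap F L) (symb ![Units.mk0 _ hc1, u]) = _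
        rw [map_sy]
        congr 1
        apply Units.ext
        show algebraMap F L _ = ((f ^ n : Lˣ) : L)
        rw [Units.val_pow_eq_pow_val, hfn]
        rfl
      rw [sy_pow_left] at h1
      have h2 := R.smul_mem ((n : ℚ)⁻¹) h1
      rwa [smul_smul, inv_mul_cancel₀ (by exact_mod_cast hn0.ne'), one_smul] at h2
    have hbot : ((Submodule.span ℚ (Set.range fun u : Fˣ => sy f (up F L u)) ⊔ R) ⊓
        ⨅ v ∈ VN k L, unitPart v 2).map R.mkQ = ⊥ := by
      rw [eq_bot_iff]
      rintro _ ⟨z, ⟨hz, -⟩, rfl⟩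
      have : z ∈ R := (sup_le hle le_rfl) hz
      rw [Submodule.mem_bot, Submodule.mkQ_apply, Submodule.Quotient.mk_eq_zero]
      exact this
    rw [hbot]
    infer_instance
  · push Not at hall
    obtain ⟨τ, hτ⟩ := hall
    have hτ' : Transcendental k (gg fM τ : M) := hτ
    -- the spaces over `M`
    let Wσ : (M ≃ₐ[F] M) → Submodule ℚ (KQ M 2) := fun σ =>
      if Transcendental k (gg fM σ : M) then
        Submodule.span ℚ (Set.range fun u : Mˣ => sy (gg fM σ) u) ⊓ ⨅ v ∈ VN k M, unitPart v 2 else ⊥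
    have hWσ : ∀ σ, FiniteDimensional ℚ (Wσ σ) := by
      intro σ
      by_cases h : Transcendental k (gg fM σ : M)
      · have : FiniteDimensional k⟮(gg fM σ : M)⟯ M := fin_adj X _ hX h
        have h2 := finite_desc hk (gg fM σ) h
        have e : Wσ σ = _ := if_pos h
        rw [e]
        exact h2
      · have e : Wσ σ = ⊥ := if_neg h
        rw [e]
        infer_instance
    let W : Submodule ℚ (KQ M 2) := ⨆ σ, Wσ σ
    have hW : FiniteDimensional ℚ W := Submodule.finiteDimensional_iSup _
    -- the entries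
    have hmem : ∀ u : Fˣ, u ∈ (UU k M f : Subgroup Fˣ) → ∀ σ : M ≃ₐ[F] M, sy (gg fM σ) (up F M u) ∈ W := by
      intro u hu σ
      by_cases h : Transcendental k (gg fM σ : M)
      · refine (le_iSup Wσ σ) ?_
        have e : Wσ σ = _ := if_pos h
        rw [e]
        refine ⟨Submodule.subset_span ⟨_, rfl⟩, ?_⟩
        show sy (gg fM σ) (up F M u) ∈ ⨅ v ∈ VN k M, unitPart v 2
        rw [Submodule.mem_iInf]
        intro v
        rw [Submodule.mem_iInf]
        exact hu σ v
      · have halg : IsAlgebraic k (gg fM σ : M) := by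
          by_contra h2; exact h h2
        have hzero : sy (gg fM σ) (up F M u) = 0 := by
          by_cases hu1 : ∃ v ∈ VN k M, v (up F M u : M) ≠ 1
          · obtain ⟨v, hv, hne⟩ := hu1
            obtain ⟨n, hn, h1⟩ := tame_tors v _ _ (hu σ v hv) (val_alg hv (Units.ne_zero _) halg) hne
            refine sy_tors_left _ _ n hn (Units.ext ?_)
            rw [Units.val_pow_eq_pow_val, Units.val_one]
            by_contra h0
            have h3 := val_alg hv (sub_ne_zero.2 h0) ((halg.pow n).sub isAlgebraic_one)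
            rw [h3] at h1
            exact lt_irrefl _ h1
          · push Not at hu1
            have halgu : IsAlgebraic k (up F M u : M) := by
              by_contra htr
              have : FiniteDimensional k⟮(up F M u : M)⟯ M := fin_adj X _ hX htr
              obtain ⟨v, hv, hlt⟩ := exists_zero (up F M u : M) htr
              rw [hu1 v hv] at hlt
              exact lt_irrefl _ hlt
            have : FiniteDimensional k⟮(gg fM τ : M)⟯ M := fin_adj X _ hX hτ'
            obtain ⟨w, hw, hwlt⟩ := exists_zero (gg fM τ : M) hτ'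
            obtain ⟨n, hn, h1⟩ := tame_tors w (up F M u) (gg fM τ) (unitPart_swap w _ _ (hu τ w hw)) (hu1 w hw)
              hwlt.ne
            refine sy_tors_right _ _ n hn (Units.ext ?_)
            rw [Units.val_pow_eq_pow_val, Units.val_one]
            by_contra h0
            have h3 := val_alg hw (sub_ne_zero.2 h0) ((halgu.pow n).sub isAlgebraic_one)
            rw [h3] at h1
            exact lt_irrefl _ h1
        rw [hzero]
        exact Submodule.zero_mem _
    -- the map of the quotients
    let ρ : (KQ L 2 ⧸ R) →ₗ[ℚ] (KQ M 2 ⧸ RM) := Submodule.mapQ R RM (KQ.map 2 (algebraMap L M)) (by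
      rintro _ ⟨z, rfl⟩
      refine ⟨z, ?_⟩
      rw [← kmap_comp, ← IsScalarTower.algebraMap_eq])
    have hρ : Function.Injective ρ := by
      rw [← LinearMap.ker_eq_bot, LinearMap.ker_eq_bot']
      intro z hz
      obtain ⟨z, rfl⟩ := Submodule.mkQ_surjective _ z
      rw [Submodule.mkQ_apply] at hz
      rw [Submodule.mapQ_apply, Submodule.Quotient.mk_eq_zero] at hz
      obtain ⟨β, hβ⟩ := hz
      rw [Submodule.mkQ_apply, Submodule.Quotient.mk_eq_zero]
      refine ⟨β, ?_⟩
      rw [← sub_eq_zero]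
      refine inj_alg _ ?_ (F' := M)
      rw [map_sub, ← kmap_comp, ← IsScalarTower.algebraMap_eq, hβ, sub_self]
    set P := ((Submodule.span ℚ (Set.range fun u : Fˣ => sy f (up F L u)) ⊔ R) ⊓
        ⨅ v ∈ VN k L, unitPart v 2).map R.mkQ with hP
    have hle : P.map ρ ≤ W.map RM.mkQ := by
      rintro _ ⟨_, ⟨z, ⟨hz, hun⟩, rfl⟩, rfl⟩
      obtain ⟨a, ha, β, hβ, rfl⟩ := Submodule.mem_sup.1 hz
      obtain ⟨q, u, rfl⟩ := span_hom (fun u : Fˣ => sy f (up F L u)) (fun a b => by
        rw [up_mul, sy_mul_right]) a ha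
      have hβ0 : R.mkQ β = 0 := by
        rw [Submodule.mkQ_apply, Submodule.Quotient.mk_eq_zero]
        exact hβ
      rw [map_add, hβ0, add_zero]
      by_cases hq : q = 0
      · rw [hq, zero_smul, map_zero, map_zero]
        exact Submodule.zero_mem _
      · have hu := mem_UU (k := k) (M := M) f q hq u β hβ hun
        have h1 : KQ.map 2 (algebraMap L M) (sy f (up F L u)) = sy fM (up F M u) := by
          show KQ.map 2 (algebraMap L M) (symb ![f, up F L u]) = _
          rw [map_sy]
          congr 1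
          apply Units.ext
          show algebraMap L M (algebraMap F L u) = algebraMap F M u
          rw [← IsScalarTower.algebraMap_apply]
        have h2 : ρ (R.mkQ (q • sy f (up F L u))) = RM.mkQ (q • sy fM (up F M u)) := by
          rw [map_smul, map_smul, map_smul, ← h1]
          rfl
        rw [h2]
        have h3 : sy fM (up F M u) = ((Fintype.card (M ≃ₐ[F] M) : ℕ) : ℚ)⁻¹ • (sy (up F M Nf) (up F M u) -
            ∑ σ : M ≃ₐ[F] M, sy (gg fM σ) (up F M u)) := by
          rw [← havg, smul_smul, inv_mul_cancel₀ hcard, one_smul]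
        have h4 : RM.mkQ (sy (up F M Nf) (up F M u)) = 0 := by
          rw [Submodule.mkQ_apply, Submodule.Quotient.mk_eq_zero]
          exact hNR u
        rw [h3, map_smul, map_smul, map_sub, h4, zero_sub]
        refine Submodule.smul_mem _ _ (Submodule.smul_mem _ _ (Submodule.neg_mem _ ?_))
        exact ⟨_, Submodule.sum_mem _ fun σ _ => hmem u hu σ, rfl⟩
    have hfinW : FiniteDimensional ℚ ↥(W.map RM.mkQ) := inferInstance
    have hfinP : FiniteDimensional ℚ ↥(P.map ρ) := Submodule.finiteDimensional_of_le hle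
    exact LinearEquiv.finiteDimensional (Submodule.equivMapOfInjective ρ hρ P).symm

end Pool.Agent.Helper79.QP
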