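import Mathlib

set_option autoImplicit false

/-!
# A function whose quotients with the conjugates are dependent is, up to a power, quadratic
-/

namespace Pool.Agent.Helper79.QP

open Polynomial

theorem coc {G : Type*} [Group G] [Finite G] (ε lam : G → ℚ) (hε : ∀ τ σ, ε (τ * σ) = ε τ * ε σ) (hε1 : ε 1 = 1)
    (h : ∀ τ σ, lam (τ * σ) = ε τ * lam σ + lam τ) (σ₀ : G) (h1 : lam σ₀ = 1) (τ : G) : lam τ = 0 ∨ lam τ = 1 := by
  have hpow : ∀ (τ : G) (n : ℕ), ε (τ ^ n) = ε τ ^ n := by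
    intro τ n
    induction n with
    | zero => rw [pow_zero, pow_zero, hε1]
    | succ n ih => rw [pow_succ, hε, ih, pow_succ]
  have hpm : ∀ τ : G, ε τ = 1 ∨ ε τ = -1 := by
    intro τ
    have h2 : ε τ ^ (Nat.card G) = 1 := by rw [← hpow, pow_card_eq_one', hε1]
    have h3 : |ε τ| = 1 := by
      have h4 : |ε τ| ^ (Nat.card G) = 1 := by rw [← abs_pow, h2, abs_one]
      exact (pow_eq_one_iff_of_nonneg (abs_nonneg _) Nat.card_pos.ne').1 h4
    rcases abs_eq (zero_le_one' ℚ) |>.1 h3 with h4 | h4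
    · exact Or.inl h4
    · exact Or.inr h4
  have hl1 : lam 1 = 0 := by
    have := h 1 1
    rw [mul_one, hε1] at this
    linarith
  have hker : ∀ τ : G, ε τ = 1 → lam τ = 0 := by
    intro τ hτ
    have h2 : ∀ n : ℕ, lam (τ ^ n) = n * lam τ := by
      intro n
      induction n with
      | zero => rw [pow_zero, hl1, Nat.cast_zero, zero_mul]
      | succ n ih =>
        rw [pow_succ', h, ih, hτ]
        push_cast
        ring
    have h3 := h2 (Nat.card G)
    rw [pow_card_eq_one', hl1] at h3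
    have h4 : ((Nat.card G : ℕ) : ℚ) ≠ 0 := by exact_mod_cast Nat.card_pos.ne'
    rcases mul_eq_zero.1 h3.symm with h5 | h5
    · exact absurd h5 h4
    · exact h5
  have hσ : ε σ₀ = -1 := by
    rcases hpm σ₀ with h2 | h2
    · have := hker σ₀ h2
      rw [h1] at this
      exact absurd this one_ne_zero
    · exact h2
  rcases hpm τ with h2 | h2
  · exact Or.inl (hker τ h2)
  · right
    have e : τ = σ₀ * (σ₀⁻¹ * τ) := by group
    have h3 : ε (σ₀⁻¹ * τ) = 1 := by
      have h4 := hε σ₀ (σ₀⁻¹ * τ)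
      rw [← e, h2, hσ] at h4
      linarith
    rw [e, h, hker _ h3, h1, mul_zero, zero_add]

variable {F M : Type*} [Field F] [Field M] [Algebra F M]

theorem quad_aux [FiniteDimensional F M] [IsGalois F M] (φ ψ : M) (hne : ψ ≠ φ)
    (hperm : ∀ τ : M ≃ₐ[F] M, τ φ = φ ∨ τ φ = ψ) (σ : M ≃ₐ[F] M) (hσ : σ φ = ψ) :
    (minpoly F φ).natDegree = 2 := by
  have hψ : ∀ τ : M ≃ₐ[F] M, τ ψ = φ ∨ τ ψ = ψ := by
    intro τ
    have := hperm (τ * σ)
    rw [AlgEquiv.mul_apply, hσ] at this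
    exact this
  have hboth : ∀ τ : M ≃ₐ[F] M, (τ φ = φ ∧ τ ψ = ψ) ∨ (τ φ = ψ ∧ τ ψ = φ) := by
    intro τ
    have hinj : τ ψ ≠ τ φ := fun h => hne (τ.injective h)
    rcases hperm τ with h1 | h1 <;> rcases hψ τ with h2 | h2
    · exact absurd (h2.trans h1.symm) hinj
    · exact Or.inl ⟨h1, h2⟩
    · exact Or.inr ⟨h1, h2⟩
    · exact absurd (h2.trans h1.symm) hinj
  have hs : φ + ψ ∈ (⊥ : IntermediateField F M) := by
    rw [IsGalois.mem_bot_iff_fixed]
    intro τ
    rcases hboth τ with ⟨h1, h2⟩ | ⟨h1, h2⟩ <;> rw [map_add, h1, h2]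
    rw [add_comm]
  have hp : φ * ψ ∈ (⊥ : IntermediateField F M) := by
    rw [IsGalois.mem_bot_iff_fixed]
    intro τ
    rcases hboth τ with ⟨h1, h2⟩ | ⟨h1, h2⟩ <;> rw [map_mul, h1, h2]
    rw [mul_comm]
  obtain ⟨s, hs⟩ := IntermediateField.mem_bot.1 hs
  obtain ⟨p, hp⟩ := IntermediateField.mem_bot.1 hp
  have hroot : aeval φ (X ^ 2 - C s * X + C p : F[X]) = 0 := by
    simp only [map_add, map_sub, map_mul, map_pow, aeval_X, aeval_C, hs, hp]
    ring
  have hmon : (X ^ 2 - C s * X + C p : F[X]).natDegree = 2 := by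
    compute_degree!
  have hne0 : (X ^ 2 - C s * X + C p : F[X]) ≠ 0 := by
    intro h
    rw [h, natDegree_zero] at hmon
    exact absurd hmon (by norm_num)
  have h1 : (minpoly F φ).natDegree ≤ 2 := by
    rw [← hmon]
    exact natDegree_le_of_dvd (minpoly.dvd F φ hroot) hne0
  have hint : IsIntegral F φ := Algebra.IsIntegral.isIntegral φ
  have h2 : 0 < (minpoly F φ).natDegree := minpoly.natDegree_pos hint
  have h3 : (minpoly F φ).natDegree ≠ 1 := by
    intro h
    obtain ⟨c, hc⟩ := minpoly.natDegree_eq_one_iff.1 h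
    apply hne
    rw [← hσ, ← hc]
    exact σ.commutes c
  omega

/-- the quotient of the conjugate and the function -/
noncomputable def gg (f : Mˣ) (σ : M ≃ₐ[F] M) : Mˣ := Units.map (σ : M →* M) f * f⁻¹

theorem gg_mul (f : Mˣ) (τ σ : M ≃ₐ[F] M) : gg f (τ * σ) = Units.map (τ : M →* M) (gg f σ) * gg f τ := by
  apply Units.ext
  simp [gg]

theorem quad_of_line [FiniteDimensional F M] [IsGalois F M] (f : Mˣ) (σ₀ : M ≃ₐ[F] M) (o : Mˣ → ℤ)
    (ho : ∀ a b, o (a * b) = o a + o b) (h0 : o (gg f σ₀) ≠ 0)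
    (hline : ∀ σ : M ≃ₐ[F] M, ∃ (p q : ℤ) (n : ℕ), q ≠ 0 ∧ 0 < n ∧ (gg f σ₀ ^ p * gg f σ ^ q) ^ n = 1) :
    ∃ m : ℕ, 0 < m ∧ (minpoly F ((f : M) ^ m)).natDegree = 2 := by
  classical
  set g := gg f σ₀ with hg
  let oh : Mˣ →* Multiplicative ℤ :=
    { toFun := fun x => Multiplicative.ofAdd (o x)
      map_one' := by
        have := ho 1 1
        rw [mul_one] at this
        have h1 : o 1 = 0 := by linarith
        show Multiplicative.ofAdd (o 1) = 1
        rw [h1, ofAdd_zero]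
      map_mul' := fun a b => by
        show Multiplicative.ofAdd (o (a * b)) = _
        rw [ho, ofAdd_add] }
  have hoh : ∀ x, oh x = Multiplicative.ofAdd (o x) := fun _ => rfl
  have o1 : o 1 = 0 := by
    have := ho 1 1
    rw [mul_one] at this
    linarith
  have ozp : ∀ (x : Mˣ) (n : ℤ), o (x ^ n) = n * o x := by
    intro x n
    have h1 := map_zpow oh x n
    rw [hoh, hoh, ← ofAdd_zsmul] at h1
    have h2 := congrArg Multiplicative.toAdd h1
    simpa [mul_comm] using h2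
  have op : ∀ (x : Mˣ) (n : ℕ), o (x ^ n) = n * o x := fun x n => by
    rw [← zpow_natCast, ozp]
  have oi : ∀ x : Mˣ, o x⁻¹ = -o x := by
    intro x
    have := ho x x⁻¹
    rw [mul_inv_cancel, o1] at this
    linarith
  let Ln : Mˣ → Prop := fun x => ∃ n : ℕ, 0 < n ∧ (x ^ o g) ^ n = (g ^ o x) ^ n
  have Ln_mul : ∀ x y, Ln x → Ln y → Ln (x * y) := by
    rintro x y ⟨n, hn, hx⟩ ⟨m, hm, hy⟩
    refine ⟨n * m, Nat.mul_pos hn hm, ?_⟩
    rw [ho, mul_zpow, zpow_add, mul_pow, mul_pow, pow_mul, hx, mul_comm n m, pow_mul (y ^ o g), hy, ← pow_mul,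
      ← pow_mul, mul_comm n m]
  have Ln_inv : ∀ x, Ln x → Ln x⁻¹ := by
    rintro x ⟨n, hn, hx⟩
    refine ⟨n, hn, ?_⟩
    rw [oi, inv_zpow, inv_pow, hx, zpow_neg, inv_pow]
  have Ln_gg : ∀ σ : M ≃ₐ[F] M, Ln (gg f σ) := by
    intro σ
    obtain ⟨p, q, n, hq, hn, h1⟩ := hline σ
    have h2 : p * o g + q * o (gg f σ) = 0 := by
      have h3 := congrArg o h1
      rw [op, ho, ozp, ozp, o1] at h3
      rcases mul_eq_zero.1 h3 with h4 | h4
      · exact absurd (by exact_mod_cast h4) hn.ne'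
      · exact h4
    have h3 : ((gg f σ ^ o g) ^ q) ^ n = ((g ^ o (gg f σ)) ^ q) ^ n := by
      have h4 : ((g ^ p * gg f σ ^ q) ^ n) ^ o g = 1 := by rw [h1, one_zpow]
      have e : ((g ^ p * gg f σ ^ q) ^ n) ^ o g = ((gg f σ ^ o g) ^ q) ^ n * (((g ^ o (gg f σ)) ^ q) ^ n)⁻¹ := by
        have e1 : ((g ^ p * gg f σ ^ q) ^ n) ^ o g = g ^ (p * n * o g) * gg f σ ^ (q * n * o g) := by
          rw [← zpow_natCast, ← zpow_mul, mul_zpow, ← zpow_mul, ← zpow_mul, ← mul_assoc, ← mul_assoc]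
        have e2 : ((gg f σ ^ o g) ^ q) ^ n = gg f σ ^ (o g * q * n) := by
          rw [← zpow_natCast, ← zpow_mul, ← zpow_mul, mul_assoc]
        have e3 : ((g ^ o (gg f σ)) ^ q) ^ n = g ^ (o (gg f σ) * q * n) := by
          rw [← zpow_natCast, ← zpow_mul, ← zpow_mul, mul_assoc]
        rw [e1, e2, e3, show p * n * o g = -(o (gg f σ) * q * n) by linear_combination (n : ℤ) * h2, zpow_neg,
          show q * n * o g = o g * q * n by ring, mul_comm]
      rw [e] at h4
      exact mul_inv_eq_one.1 h4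
    refine ⟨q.natAbs * n, Nat.mul_pos (Int.natAbs_pos.2 hq) hn, ?_⟩
    rw [pow_mul, pow_mul]
    rcases Int.natAbs_eq q with h4 | h4
    · rw [h4, zpow_natCast, zpow_natCast] at h3
      exact h3
    · rw [h4, zpow_neg, zpow_neg, zpow_natCast, zpow_natCast, inv_pow, inv_pow, inv_inj] at h3
      exact h3
  have hact : ∀ (τ : M ≃ₐ[F] M) (x : Mˣ), Ln x →
      o (Units.map (τ : M →* M) x) * o g = o x * o (Units.map (τ : M →* M) g) := by
    rintro τ x ⟨n, hn, hx⟩
    have h1 := congrArg (fun y => o (Units.map (τ : M →* M) y)) hx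
    simp only [map_pow, map_zpow] at h1
    rw [op, op, ozp, ozp] at h1
    have h2 : (n : ℤ) ≠ 0 := by exact_mod_cast hn.ne'
    have := mul_left_cancel₀ h2 h1
    linarith
  have Ln_g : ∀ τ : M ≃ₐ[F] M, Ln (Units.map (τ : M →* M) g) := by
    intro τ
    have e : Units.map (τ : M →* M) g = gg f (τ * σ₀) * (gg f τ)⁻¹ := by
      rw [gg_mul, mul_assoc, mul_inv_cancel, mul_one]
    rw [e]
    exact Ln_mul _ _ (Ln_gg _) (Ln_inv _ (Ln_gg _))
  have h0' : ((o g : ℤ) : ℚ) ≠ 0 := by exact_mod_cast h0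
  have hall := coc (G := M ≃ₐ[F] M) (fun τ => (o (Units.map (τ : M →* M) g) : ℚ) / o g)
    (fun τ => (o (gg f τ) : ℚ) / o g)
    (by
      intro τ σ
      have h1 := hact τ _ (Ln_g σ)
      have h2 : Units.map ((τ * σ : M ≃ₐ[F] M) : M →* M) g =
          Units.map (τ : M →* M) (Units.map (σ : M →* M) g) := by
        apply Units.ext
        simp
      show (o (Units.map ((τ * σ : M ≃ₐ[F] M) : M →* M) g) : ℚ) / o g =
        (o (Units.map (τ : M →* M) g) : ℚ) / o g * ((o (Units.map (σ : M →* M) g) : ℚ) / o g)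
      rw [h2]
      have h3 : (o (Units.map (τ : M →* M) (Units.map (σ : M →* M) g)) : ℚ) * o g =
          o (Units.map (σ : M →* M) g) * o (Units.map (τ : M →* M) g) := by exact_mod_cast h1
      field_simp
      linarith)
    (by
      have h2 : Units.map ((1 : M ≃ₐ[F] M) : M →* M) g = g := by
        apply Units.ext
        simp
      show (o (Units.map ((1 : M ≃ₐ[F] M) : M →* M) g) : ℚ) / o g = 1
      rw [h2, div_self h0'])
    (by
      intro τ σ
      have h1 := hact τ _ (Ln_gg σ)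
      show (o (gg f (τ * σ)) : ℚ) / o g =
        (o (Units.map (τ : M →* M) g) : ℚ) / o g * ((o (gg f σ) : ℚ) / o g) + (o (gg f τ) : ℚ) / o g
      rw [gg_mul, ho, Int.cast_add]
      have h3 : (o (Units.map (τ : M →* M) (gg f σ)) : ℚ) * o g =
          o (gg f σ) * o (Units.map (τ : M →* M) g) := by exact_mod_cast h1
      field_simp
      linarith) σ₀ (div_self h0')
  have hfin : ∀ τ : M ≃ₐ[F] M, ∃ n : ℕ, 0 < n ∧ (gg f τ ^ n = 1 ∨ gg f τ ^ n = g ^ n) := by
    intro τ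
    obtain ⟨n, hn, h1⟩ := Ln_gg τ
    have hnat : ∀ (x y : Mˣ), (x ^ o g) ^ n = (y ^ o g) ^ n → x ^ ((o g).natAbs * n) = y ^ ((o g).natAbs * n) := by
      intro x y hxy
      rw [pow_mul, pow_mul]
      rcases Int.natAbs_eq (o g) with h4 | h4
      · rw [h4, zpow_natCast, zpow_natCast] at hxy
        exact hxy
      · rw [h4, zpow_neg, zpow_neg, zpow_natCast, zpow_natCast, inv_pow, inv_pow, inv_inj] at hxy
        exact hxy
    refine ⟨(o g).natAbs * n, Nat.mul_pos (Int.natAbs_pos.2 h0) hn, ?_⟩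
    rcases hall τ with h2 | h2
    · left
      have h3 : o (gg f τ) = 0 := by
        have := (div_eq_zero_iff.1 h2).resolve_right h0'
        exact_mod_cast this
      have h4 := hnat (gg f τ) 1 (by rw [h1, h3, zpow_zero, one_zpow])
      rw [h4, one_pow]
    · right
      have h3 : o (gg f τ) = o g := by
        have h4 : (o (gg f τ) : ℚ) = o g := by
          have h5 : (o (gg f τ) : ℚ) / o g = 1 := h2
          rwa [div_eq_one_iff_eq h0'] at h5
        exact_mod_cast h4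
      exact hnat _ _ (by rw [h1, h3])
  choose n hn hn1 using hfin
  have : Fintype (M ≃ₐ[F] M) := Fintype.ofFinite _
  set m := ∏ τ, n τ with hm
  have hm0 : 0 < m := Finset.prod_pos fun τ _ => hn τ
  have hdvd : ∀ τ, n τ ∣ m := fun τ => Finset.dvd_prod_of_mem n (Finset.mem_univ τ)
  have hτ : ∀ τ : M ≃ₐ[F] M, Units.map (τ : M →* M) f = gg f τ * f := by
    intro τ
    rw [gg, inv_mul_cancel_right]
  have hτm : ∀ τ : M ≃ₐ[F] M, Units.map (τ : M →* M) (f ^ m) = gg f τ ^ m * f ^ m := by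
    intro τ
    rw [map_pow, hτ, mul_pow]
  have hval : ∀ τ : M ≃ₐ[F] M, τ ((f : M) ^ m) = ((Units.map (τ : M →* M) (f ^ m) : Mˣ) : M) := by
    intro τ
    simp
  refine ⟨m, hm0, quad_aux ((f : M) ^ m) (σ₀ ((f : M) ^ m)) ?_ ?_ σ₀ rfl⟩
  · intro h1
    rw [hval, hτm, Units.val_mul, Units.val_pow_eq_pow_val f] at h1
    have h2 : (((g ^ m : Mˣ)) : M) = 1 := by
      have hf0 : (f : M) ^ m ≠ 0 := pow_ne_zero _ f.ne_zero
      exact (mul_eq_right₀ hf0).1 h1
    have h3 : g ^ m = 1 := Units.ext h2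
    have h4 := congrArg o h3
    rw [op, o1] at h4
    rcases mul_eq_zero.1 h4 with h5 | h5
    · exact hm0.ne' (by exact_mod_cast h5)
    · exact h0 h5
  · intro τ
    obtain ⟨k, hk⟩ := hdvd τ
    rw [hval, hval, hτm, hτm, ← hg]
    rcases hn1 τ with h1 | h1
    · left
      rw [hk, pow_mul (gg f τ), h1, one_pow, one_mul, Units.val_pow_eq_pow_val]
    · right
      have h2 : gg f τ ^ m = g ^ m := by rw [hk, pow_mul, pow_mul, h1]
      rw [h2]

end Pool.Agent.Helper79.QP
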