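import Pool.Agent.Helper79.QP.Main

set_option autoImplicit false

/-!
# The theorem for intermediate fields
-/

namespace Pool.Agent.Helper79.QP

open scoped WithZero
open Polynomial IntermediateField Module
open Pool.Agent.TH826.MK (KQ symb KQ.map KQ.map_symb unitPart)
open Pool.Agent.Helper537_Sym
open Pool.Agent.Helper79.FE (VN)

theorem fin_up {k L M : Type*} [Field k] [Field L] [Field M] [Algebra k L] [Algebra L M] [Algebra k M]
    [IsScalarTower k L M] [FiniteDimensional L M] (x : L) [FiniteDimensional k⟮x⟯ L] :
    FiniteDimensional k⟮algebraMap L M x⟯ M := by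
  classical
  have hmem : ∀ c : L, c ∈ k⟮x⟯ → algebraMap L M c ∈ k⟮algebraMap L M x⟯ := by
    intro c hc
    induction hc using IntermediateField.adjoin_induction with
    | mem y hy =>
      rw [Set.mem_singleton_iff.1 hy]
      exact IntermediateField.mem_adjoin_simple_self k _
    | algebraMap y =>
      rw [← IsScalarTower.algebraMap_apply]
      exact (k⟮algebraMap L M x⟯).algebraMap_mem y
    | add x y _ _ hx hy => rw [map_add]; exact add_mem hx hy
    | mul x y _ _ hx hy => rw [map_mul]; exact mul_mem hx hy
    | inv x _ hx => rw [map_inv₀]; exact inv_mem hx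
  let b := Module.finBasis k⟮x⟯ L
  let d := Module.finBasis L M
  refine Module.finite_def.2 ⟨Finset.univ.image fun p : Fin (finrank k⟮x⟯ L) × Fin (finrank L M) =>
    algebraMap L M (b p.1) * d p.2, ?_⟩
  rw [eq_top_iff]
  rintro m -
  rw [← d.sum_repr m]
  refine Submodule.sum_mem _ fun j _ => ?_
  rw [← b.sum_repr (d.repr m j), Finset.sum_smul]
  refine Submodule.sum_mem _ fun i _ => ?_
  have e : (b.repr (d.repr m j) i • b i) • d j =
      (⟨algebraMap L M (b.repr (d.repr m j) i : L), hmem _ (b.repr (d.repr m j) i).2⟩ : k⟮algebraMap L M x⟯) •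
        (algebraMap L M (b i) * d j) := by
    rw [Algebra.smul_def, IntermediateField.smul_def, IntermediateField.smul_def]
    simp only [smul_eq_mul, map_mul]
    ring
  rw [e]
  refine Submodule.smul_mem _ _ (Submodule.subset_span ?_)
  simp only [Finset.coe_image, Finset.coe_univ, Set.image_univ, Set.mem_range, Prod.exists]
  exact ⟨i, j, rfl⟩

theorem inter_fin {k L : Type*} [Field k] [IsAlgClosed k] (ι : k →+* ℂ) [Field L] [Algebra k L] (x : L)
    (hx : Transcendental k x) [FiniteDimensional k⟮x⟯ L] (F : IntermediateField k L) [FiniteDimensional F L]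
    (f : Lˣ) (hf : ∀ m : ℕ, 0 < m → (minpoly F ((f : L) ^ m)).natDegree ≠ 2) :
    FiniteDimensional ℚ ↥(((Submodule.span ℚ (Set.range fun u : Fˣ => sy f (up F L u)) ⊔
      LinearMap.range (KQ.map 2 (algebraMap F L))) ⊓ ⨅ v ∈ VN k L, unitPart v 2).map
        (LinearMap.range (KQ.map 2 (algebraMap F L))).mkQ) := by
  have : CharZero k := RingHom.charZero ι
  have : CharZero L := charZero_of_injective_algebraMap (algebraMap k L).injective
  let Ω := AlgebraicClosure L
  have h1 : Algebra.IsAlgebraic F Ω := Algebra.IsAlgebraic.trans F L Ω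
  have h2 : IsAlgClosure F Ω := ⟨inferInstance, h1⟩
  have h3 : Normal F Ω := IsAlgClosure.normal F Ω
  let M := normalClosure F L Ω
  have i2 : IsScalarTower F L M := inferInstance
  have i3 : FiniteDimensional F M := inferInstance
  have i7 : IsScalarTower k F M := inferInstance
  have i8 : IsScalarTower k L M := IsScalarTower.of_algebraMap_eq fun x => Subtype.ext rfl
  have i4 : Normal F M := inferInstance
  have i5 : IsGalois F M := ⟨⟩
  have i6 : FiniteDimensional L M := FiniteDimensional.right F L M
  have hX : Transcendental k (algebraMap L M x) := by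
    intro h
    exact hx ((isAlgebraic_algebraMap_iff (algebraMap L M).injective).1 h)
  have i9 : FiniteDimensional k⟮algebraMap L M x⟯ M := fin_up x
  exact quot_fin (M := M) ι (algebraMap L M x) hX f hf

end Pool.Agent.Helper79.QP
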