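import Pool.Agent.Helper79.HT.Plc
import Pool.Agent.Helper79.FE.DZa

set_option autoImplicit false

/-!
# Torsion values of two functions on a curve (Ihara, Serre, Tate, Lang)
-/

namespace Pool.Agent.Helper79.QP

open scoped WithZero
open Polynomial IntermediateField Module
open Pool.Agent.Helper79.FE (VN exists_zero finite_zeros fin_adj val_alg Rt exists_root)
open Pool.Agent.Helper79.HT (zeros_fin exists_rel cst_le)

/-- a polynomial in two variables which vanishes on the torus is zero -/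
theorem biv_zero {k : Type*} [Field k] (ι : k →+* ℂ) (R : k[X][X])
    (h : ∀ x y : ℂ, x ≠ 0 → y ≠ 0 → eval₂ (eval₂RingHom ι x) y R = 0) : R = 0 := by
  have h1 : ∀ x : ℂ, x ≠ 0 → R.map (eval₂RingHom ι x) = 0 := by
    intro x hx
    refine Polynomial.eq_zero_of_infinite_isRoot _ (Set.Infinite.mono (s := ({0}ᶜ : Set ℂ)) (fun y hy => ?_)
      (Set.finite_singleton 0).infinite_compl)
    show (R.map (eval₂RingHom ι x)).eval y = 0
    rw [eval_map]
    exact h x y hx hy
  refine Polynomial.ext fun j => ?_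
  have h2 : (R.coeff j).map ι = 0 := by
    refine Polynomial.eq_zero_of_infinite_isRoot _ (Set.Infinite.mono (s := ({0}ᶜ : Set ℂ)) (fun x hx => ?_)
      (Set.finite_singleton 0).infinite_compl)
    show ((R.coeff j).map ι).eval x = 0
    have h3 := congrArg (fun P : ℂ[X] => P.coeff j) (h1 x hx)
    simp only [coeff_map, coe_eval₂RingHom, coeff_zero] at h3
    rw [eval_map, h3]
  rw [coeff_zero]
  exact (Polynomial.map_eq_zero ι).1 h2

/-- solving monomial equations -/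
theorem mono_surj (a b c d : ℤ) (hD : a * d - b * c ≠ 0) (x y : ℂ) (hx : x ≠ 0) (hy : y ≠ 0) :
    ∃ s t : ℂ, s ≠ 0 ∧ t ≠ 0 ∧ s ^ a * t ^ b = x ∧ s ^ c * t ^ d = y := by
  have hD' : ((a : ℂ) * d - b * c) ≠ 0 := by exact_mod_cast hD
  set A := Complex.log x with hA
  set B := Complex.log y with hB
  refine ⟨Complex.exp ((d * A - b * B) / (a * d - b * c)), Complex.exp ((a * B - c * A) / (a * d - b * c)),
    Complex.exp_ne_zero _, Complex.exp_ne_zero _, ?_, ?_⟩
  · rw [← Complex.exp_int_mul, ← Complex.exp_int_mul, ← Complex.exp_add]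
    have : (a : ℂ) * ((d * A - b * B) / (a * d - b * c)) + b * ((a * B - c * A) / (a * d - b * c)) = A := by
      rw [mul_div_assoc', mul_div_assoc', ← add_div, div_eq_iff hD']
      ring
    rw [this, hA, Complex.exp_log hx]
  · rw [← Complex.exp_int_mul, ← Complex.exp_int_mul, ← Complex.exp_add]
    have : (c : ℂ) * ((d * A - b * B) / (a * d - b * c)) + d * ((a * B - c * A) / (a * d - b * c)) = B := by
      rw [mul_div_assoc', mul_div_assoc', ← add_div, div_eq_iff hD']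
      ring
    rw [this, hB, Complex.exp_log hy]

open MvPolynomial in
/-- the polynomial in two variables over the complex numbers -/
noncomputable def toMv {k : Type*} [Field k] (ι : k →+* ℂ) : k[X][X] →+* MvPolynomial (Fin 2) ℂ :=
  eval₂RingHom (eval₂RingHom ((MvPolynomial.C : ℂ →+* MvPolynomial (Fin 2) ℂ).comp ι) (MvPolynomial.X 0)) (MvPolynomial.X 1)

theorem toMv_eval {k : Type*} [Field k] (ι : k →+* ℂ) (R : k[X][X]) (z : Fin 2 → ℂ) :
    MvPolynomial.eval z (toMv ι R) = eval₂ (eval₂RingHom ι (z 0)) (z 1) R := by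
  rw [toMv, coe_eval₂RingHom, hom_eval₂, MvPolynomial.eval_X]
  congr 1
  refine Polynomial.ringHom_ext (fun c => ?_) ?_
  · simp
  · simp

/-- two torsion points on a coset satisfy the same relation -/
theorem cyc_struct {k : Type*} [Field k] (ι : k →+* ℂ) (R : k[X][X]) (hR : R ≠ 0) :
    ∃ C : Set (ℤ × ℤ × ℂ), C.Finite ∧ (∀ c ∈ C, c.1 ≠ 0 ∨ c.2.1 ≠ 0) ∧ ∀ x y : k, Rt x → Rt y →
      eval₂ (eval₂RingHom (RingHom.id k) x) y R = 0 → ∃ c ∈ C, ι x ^ c.1 * ι y ^ c.2.1 = c.2.2 := by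
  classical
  obtain ⟨C, hC, h1, h2⟩ := Pool.Agent.N695.CY.structure_thm (J := Fin 2) (Φ := Unit) (fun _ => toMv ι R)
  -- an integral vector orthogonal to the exponents
  have hex : ∀ c ∈ C, ∃ p q : ℤ, (p ≠ 0 ∨ q ≠ 0) ∧ ∀ a : Fin 2, p * c.2 a 0 + q * c.2 a 1 = 0 := by
    intro c hc
    have hdet : c.2 0 0 * c.2 1 1 - c.2 1 0 * c.2 0 1 = 0 := by
      by_contra hD
      apply hR
      refine biv_zero ι R fun x y hx hy => ?_
      obtain ⟨hc0, h3⟩ := h1 c hc
      obtain ⟨s, t, hs, ht, e1, e2⟩ := mono_surj (c.2 0 0) (c.2 1 0) (c.2 0 1) (c.2 1 1) hD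
        (x / c.1 0) (y / c.1 1) (div_ne_zero hx (hc0 0)) (div_ne_zero hy (hc0 1))
      have h4 := h3 ![s, t] (fun a => by fin_cases a <;> simpa) ()
      rw [toMv_eval] at h4
      simp only [Fin.prod_univ_two, Matrix.cons_val_zero, Matrix.cons_val_one] at h4
      rw [e1, e2, mul_div_cancel₀ _ (hc0 0), mul_div_cancel₀ _ (hc0 1)] at h4
      exact h4
    by_cases h0 : c.2 0 0 = 0 ∧ c.2 0 1 = 0
    · by_cases h01 : c.2 1 0 = 0 ∧ c.2 1 1 = 0
      · refine ⟨1, 0, Or.inl one_ne_zero, fun a => ?_⟩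
        fin_cases a
        · simp [h0.1]
        · simp [h01.1]
      · refine ⟨c.2 1 1, -c.2 1 0, ?_, fun a => ?_⟩
        · by_contra hcon
          push Not at hcon
          exact h01 ⟨by simpa using hcon.2, hcon.1⟩
        · fin_cases a
          · simp [h0.1, h0.2]
          · simp only [Fin.mk_one, Fin.isValue]
            ring
    · refine ⟨c.2 0 1, -c.2 0 0, ?_, fun a => ?_⟩
      · by_contra hcon
        push Not at hcon
        exact h0 ⟨by simpa using hcon.2, hcon.1⟩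
      · fin_cases a
        · simp only [Fin.zero_eta, Fin.isValue]
          ring
        · simp only [Fin.mk_one, Fin.isValue]
          linarith [hdet]
  choose! p q hpq horth using hex
  refine ⟨(fun c => (p c, q c, c.1 0 ^ p c * c.1 1 ^ q c)) '' C, hC.image _, ?_, ?_⟩
  · rintro _ ⟨c, hc, rfl⟩
    exact hpq c hc
  · intro x y hx hy hxy
    obtain ⟨nx, hnx, hx1⟩ := hx
    obtain ⟨ny, hny, hy1⟩ := hy
    have hsol : Pool.Agent.N695.CY.IsSol (![ι x, ι y] : Fin 2 → ℂ) := by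
      refine ⟨2, 0, ![ι x, ι y], nx * ny, by norm_num, by norm_num, Nat.mul_pos hnx hny, fun j => ?_, fun j => ?_⟩
      · fin_cases j
        · show ι x ^ (nx * ny) = 1
          rw [pow_mul, ← map_pow, hx1, map_one, one_pow]
        · show ι y ^ (nx * ny) = 1
          rw [mul_comm, pow_mul, ← map_pow, hy1, map_one, one_pow]
      · simp
    have hev : ∀ F : Unit, MvPolynomial.eval (![ι x, ι y] : Fin 2 → ℂ) ((fun _ : Unit => toMv ι R) F) = 0 := by
      intro _
      show MvPolynomial.eval _ (toMv ι R) = 0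
      rw [toMv_eval]
      show eval₂ (eval₂RingHom ι (ι x)) (ι y) R = 0
      have e : eval₂RingHom ι (ι x) = ι.comp (eval₂RingHom (RingHom.id k) x) := by
        refine Polynomial.ringHom_ext (fun c => ?_) ?_
        · simp
        · simp
      rw [e, ← hom_eval₂, hxy, map_zero]
    obtain ⟨c, hc, σ, hσ, hz⟩ := h2 _ hsol hev
    refine ⟨_, ⟨c, hc, rfl⟩, ?_⟩
    have e0 : ι x = c.1 0 * (σ 0 ^ c.2 0 0 * σ 1 ^ c.2 1 0) := by
      have := hz 0
      rwa [Fin.prod_univ_two] at this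
    have e1 : ι y = c.1 1 * (σ 0 ^ c.2 0 1 * σ 1 ^ c.2 1 1) := by
      have := hz 1
      rwa [Fin.prod_univ_two] at this
    show ι x ^ p c * ι y ^ q c = c.1 0 ^ p c * c.1 1 ^ q c
    have h5 : σ 0 ^ (p c * c.2 0 0 + q c * c.2 0 1) = 1 := by rw [horth c hc 0, zpow_zero]
    have h6 : σ 1 ^ (p c * c.2 1 0 + q c * c.2 1 1) = 1 := by rw [horth c hc 1, zpow_zero]
    rw [zpow_add₀ (hσ 0)] at h5
    rw [zpow_add₀ (hσ 1)] at h6
    rw [e0, e1, mul_zpow, mul_zpow, mul_zpow, mul_zpow, ← zpow_mul, ← zpow_mul, ← zpow_mul, ← zpow_mul,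
      mul_comm (c.2 0 0), mul_comm (c.2 1 0), mul_comm (c.2 0 1), mul_comm (c.2 1 1)]
    calc c.1 0 ^ p c * (σ 0 ^ (p c * c.2 0 0) * σ 1 ^ (p c * c.2 1 0)) *
          (c.1 1 ^ q c * (σ 0 ^ (q c * c.2 0 1) * σ 1 ^ (q c * c.2 1 1)))
        = c.1 0 ^ p c * c.1 1 ^ q c * (σ 0 ^ (p c * c.2 0 0) * σ 0 ^ (q c * c.2 0 1)) *
          (σ 1 ^ (p c * c.2 1 0) * σ 1 ^ (q c * c.2 1 1)) := by ring
      _ = _ := by rw [h5, h6, mul_one, mul_one]

variable {k M : Type*} [Field k] [Field M] [Algebra k M]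

/-- congruences of the values of polynomials -/
theorem val_sub_eval {v : Valuation M ℤᵐ⁰} (hv : v ∈ VN k M) (g : M) (x : k) (hx : v (g - algebraMap k M x) < 1)
    (P : k[X]) : v (aeval g P) ≤ 1 ∧ v (aeval g P - algebraMap k M (P.eval x)) < 1 := by
  have hg : v g ≤ 1 := by
    have e : g = (g - algebraMap k M x) + algebraMap k M x := by ring
    rw [e]
    exact (v.map_add _ _).trans (max_le hx.le (cst_le hv x))
  constructor
  · rw [aeval_eq_sum_range]
    refine v.map_sum_le fun i _ => ?_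
    rw [Algebra.smul_def, map_mul, map_pow]
    exact mul_le_one' (cst_le hv _) (pow_le_one' hg i)
  · obtain ⟨Q, hQ⟩ : X - C x ∣ P - C (P.eval x) := by
      rw [dvd_iff_isRoot]
      simp
    have h1 := congrArg (aeval g) hQ
    rw [map_mul, map_sub, map_sub, aeval_X, aeval_C, aeval_C] at h1
    rw [h1, map_mul]
    have h2 : v (aeval g Q) ≤ 1 := by
      rw [aeval_eq_sum_range]
      refine v.map_sum_le fun i _ => ?_
      rw [Algebra.smul_def, map_mul, map_pow]
      exact mul_le_one' (cst_le hv _) (pow_le_one' hg i)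
    exact mul_lt_one_of_lt_of_le hx h2

/-- the relation of the values -/
theorem rel_vals {v : Valuation M ℤᵐ⁰} (hv : v ∈ VN k M) (g h : M) (x y : k) (hx : v (g - algebraMap k M x) < 1)
    (hy : v (h - algebraMap k M y) < 1) (R : k[X][X])
    (hR : eval₂ ((aeval g : k[X] →ₐ[k] M) : k[X] →+* M) h R = 0) :
    eval₂ (eval₂RingHom (RingHom.id k) x) y R = 0 := by
  classical
  have hle : ∀ (z : M) (c : k), v (z - algebraMap k M c) < 1 → v z ≤ 1 := by
    intro z c hz
    have e : z = (z - algebraMap k M c) + algebraMap k M c := by ring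
    rw [e]
    exact (v.map_add _ _).trans (max_le hz.le (cst_le hv c))
  have hh := hle h y hy
  -- the difference
  have h1 : v (eval₂ ((aeval g : k[X] →ₐ[k] M) : k[X] →+* M) h R -
      algebraMap k M (eval₂ (eval₂RingHom (RingHom.id k) x) y R)) < 1 := by
    rw [eval₂_eq_sum_range, eval₂_eq_sum_range, map_sum, ← Finset.sum_sub_distrib]
    refine v.map_sum_lt one_ne_zero fun i _ => ?_
    have h2 := val_sub_eval hv g x hx (R.coeff i)
    have h3 : v (h ^ i - algebraMap k M (y ^ i)) < 1 := by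
      have h4 := (val_sub_eval hv h y hy (X ^ i)).2
      simpa using h4
    rw [map_mul]
    have e : (((aeval g : k[X] →ₐ[k] M) : k[X] →+* M) (R.coeff i)) * h ^ i -
        algebraMap k M (eval₂RingHom (RingHom.id k) x (R.coeff i)) * algebraMap k M (y ^ i) =
        (aeval g (R.coeff i)) * (h ^ i - algebraMap k M (y ^ i)) +
        (aeval g (R.coeff i) - algebraMap k M ((R.coeff i).eval x)) * algebraMap k M (y ^ i) := by
      have : eval₂RingHom (RingHom.id k) x (R.coeff i) = (R.coeff i).eval x := rfl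
      rw [this]
      show aeval g (R.coeff i) * h ^ i - _ = _
      ring
    rw [e]
    refine v.map_add_lt ?_ ?_
    · rw [map_mul, mul_comm]
      exact mul_lt_one_of_lt_of_le h3 h2.1
    · rw [map_mul]
      exact mul_lt_one_of_lt_of_le h2.2 (cst_le hv _)
  rw [hR, zero_sub, Valuation.map_neg] at h1
  by_contra h0
  rw [hv.2 _ h0] at h1
  exact lt_irrefl _ h1

/-- **Two functions with infinitely many places with torsion values are dependent.** -/
theorem lang_pair [IsAlgClosed k] [CharZero k] (ι : k →+* ℂ) (g h : M) (hg : Transcendental k g)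
    [FiniteDimensional k⟮g⟯ M] (hh : h ≠ 0) (S : Set (Valuation M ℤᵐ⁰)) (hS : S ⊆ VN k M) (hinf : S.Infinite)
    (htor : ∀ w ∈ S, (∃ n : ℕ, 0 < n ∧ w (g ^ n - 1) < 1) ∧ ∃ n : ℕ, 0 < n ∧ w (h ^ n - 1) < 1) :
    ∃ (p q : ℤ) (n : ℕ), q ≠ 0 ∧ 0 < n ∧ (g ^ p * h ^ q) ^ n = 1 := by
  classical
  have hprim : ∀ n : ℕ, 0 < n → ∃ ζ : k, IsPrimitiveRoot ζ n := by
    intro n hn
    have : NeZero (n : k) := ⟨by exact_mod_cast hn.ne'⟩
    exact (HasEnoughRootsOfUnity.exists_primitiveRoot k n)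
  have hg0 : g ≠ 0 := by
    rintro rfl
    exact hg isAlgebraic_zero
  obtain ⟨R, hR, -, hRr⟩ := exists_rel (K := k) g h
  obtain ⟨C, hC, hC0, hC1⟩ := cyc_struct ι R hR
  have hw : ∀ w : S, ∃ (x y : k) (c : ℤ × ℤ × ℂ), Rt x ∧ Rt y ∧ w.1 (g - algebraMap k M x) < 1 ∧
      w.1 (h - algebraMap k M y) < 1 ∧ c ∈ C ∧ ι x ^ c.1 * ι y ^ c.2.1 = c.2.2 := by
    intro w
    obtain ⟨⟨n, hn, h1⟩, m, hm, h2⟩ := htor w.1 w.2
    obtain ⟨x, hx, hx1⟩ := exists_root hprim w.1 g n hn h1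
    obtain ⟨y, hy, hy1⟩ := exists_root hprim w.1 h m hm h2
    obtain ⟨c, hc, hc1⟩ := hC1 x y hx hy (rel_vals (hS w.2) g h x y hx1 hy1 R hRr)
    exact ⟨x, y, c, hx, hy, hx1, hy1, hc, hc1⟩
  choose x y c hx hy hx1 hy1 hc hc1 using hw
  have : Infinite S := hinf.to_subtype
  have : Finite C := hC
  obtain ⟨c₀, hc₀⟩ := Finite.exists_infinite_fiber (fun w : S => (⟨c w, hc w⟩ : C))
  have hfib : ∀ w : S, (⟨c w, hc w⟩ : C) = c₀ → ι (x w) ^ c₀.1.1 * ι (y w) ^ c₀.1.2.1 = c₀.1.2.2 := by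
    intro w hw
    rw [← hw]
    exact hc1 w
  set F := (fun w : S => (⟨c w, hc w⟩ : C)) ⁻¹' {c₀} with hF
  have hFi : Infinite F := hc₀
  obtain ⟨w₀⟩ : Nonempty F := inferInstance
  set η : k := x w₀ ^ c₀.1.1 * y w₀ ^ c₀.1.2.1 with hη
  have hηw : ∀ w : F, x w ^ c₀.1.1 * y w ^ c₀.1.2.1 = η := by
    intro w
    apply ι.injective
    rw [hη, map_mul, map_mul, map_zpow₀, map_zpow₀, map_zpow₀, map_zpow₀, hfib w.1 w.2, hfib w₀.1 w₀.2]
  have hηt : Rt η := by
    obtain ⟨n, hn, h1⟩ := hx w₀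
    obtain ⟨m, hm, h2⟩ := hy w₀
    refine ⟨n * m, Nat.mul_pos hn hm, ?_⟩
    have e1 : (x w₀ ^ c₀.1.1) ^ (n * m) = 1 := by
      rw [← zpow_natCast, zpow_comm, zpow_natCast, pow_mul, h1, one_pow, one_zpow]
    have e2 : (y w₀ ^ c₀.1.2.1) ^ (n * m) = 1 := by
      rw [← zpow_natCast, zpow_comm, zpow_natCast, mul_comm, pow_mul, h2, one_pow, one_zpow]
    rw [hη, mul_pow, e1, e2, mul_one]
  -- powers of the congruences
  have hval1 : ∀ (w : S) (z : M) (t : k), Rt t → w.1 (z - algebraMap k M t) < 1 → ∀ e : ℤ,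
      w.1 (z ^ e - algebraMap k M (t ^ e)) < 1 ∧ w.1 z = 1 := by
    intro w z t ht hz e
    have ht0 : t ≠ 0 := ht.ne
    have hVN := hS w.2
    have h1 : w.1 z = 1 := by
      have h2 : w.1 (algebraMap k M t) = 1 := hVN.2 t ht0
      have e : z = (z - algebraMap k M t) + algebraMap k M t := by ring
      rw [e, Valuation.map_add_eq_of_lt_right _ (by rw [h2]; exact hz), h2]
    have hz0 : z ≠ 0 := by
      rintro rfl
      rw [map_zero] at h1
      exact zero_ne_one h1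
    have hnat : ∀ n : ℕ, w.1 (z ^ n - algebraMap k M (t ^ n)) < 1 := by
      intro n
      have h4 := (val_sub_eval hVN z t hz (X ^ n)).2
      simpa using h4
    refine ⟨?_, h1⟩
    obtain ⟨n, rfl | rfl⟩ := e.eq_nat_or_neg
    · rw [zpow_natCast, zpow_natCast]; exact hnat n
    · rw [zpow_neg, zpow_neg, zpow_natCast, zpow_natCast, map_inv₀]
      have e2 : (z ^ n)⁻¹ - (algebraMap k M (t ^ n))⁻¹ =
          -(z ^ n - algebraMap k M (t ^ n)) * ((z ^ n)⁻¹ * (algebraMap k M (t ^ n))⁻¹) := by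
        have h5 : algebraMap k M (t ^ n) ≠ 0 := by
          rw [Ne, map_eq_zero]
          exact pow_ne_zero n ht0
        field_simp
        ring
      have e3 : w.1 (z ^ n)⁻¹ = 1 := by rw [map_inv₀, map_pow, h1, one_pow, inv_one]
      have e4 : w.1 (algebraMap k M (t ^ n))⁻¹ = 1 := by rw [map_inv₀, hVN.2 _ (pow_ne_zero n ht0), inv_one]
      rw [e2, Valuation.map_mul, Valuation.map_mul, e3, e4, mul_one, mul_one, Valuation.map_neg]
      exact hnat n
  have hGH : g ^ c₀.1.1 * h ^ c₀.1.2.1 - algebraMap k M η = 0 := by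
    by_contra h0
    have hfin := zeros_fin g hg _ h0
    have hsub : (fun w : F => (w.1.1 : Valuation M ℤᵐ⁰)) '' Set.univ ⊆
        {v ∈ VN k M | v (g ^ c₀.1.1 * h ^ c₀.1.2.1 - algebraMap k M η) < 1} := by
      rintro _ ⟨w, -, rfl⟩
      refine ⟨hS w.1.2, ?_⟩
      show w.1.1 (g ^ c₀.1.1 * h ^ c₀.1.2.1 - algebraMap k M η) < 1
      have h1 := hval1 w.1 g (x w) (hx w) (hx1 w) c₀.1.1
      have h2 := hval1 w.1 h (y w) (hy w) (hy1 w) c₀.1.2.1
      have h3 : w.1.1 (g ^ c₀.1.1) = 1 := by rw [map_zpow₀, h1.2, one_zpow]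
      have e : g ^ c₀.1.1 * h ^ c₀.1.2.1 - algebraMap k M η =
          g ^ c₀.1.1 * (h ^ c₀.1.2.1 - algebraMap k M (y w ^ c₀.1.2.1)) +
          (g ^ c₀.1.1 - algebraMap k M (x w ^ c₀.1.1)) * algebraMap k M (y w ^ c₀.1.2.1) := by
        rw [← hηw w, map_mul]
        ring
      rw [e]
      refine Valuation.map_add_lt _ ?_ ?_
      · rw [map_mul, h3, one_mul]
        exact h2.1
      · rw [map_mul, (hS w.1.2).2 _ (zpow_ne_zero _ (hy w).ne), mul_one]
        exact h1.1
    have hinf2 : ((fun w : F => (w.1.1 : Valuation M ℤᵐ⁰)) '' Set.univ).Infinite := by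
      refine (Set.infinite_image_iff ?_).2 Set.infinite_univ
      intro a _ b _ hab
      exact Subtype.ext (Subtype.ext hab)
    exact hinf2 (hfin.subset hsub)
  obtain ⟨n, hn, hη1⟩ := hηt
  refine ⟨c₀.1.1, c₀.1.2.1, n, ?_, hn, ?_⟩
  · intro hq
    have hp : c₀.1.1 ≠ 0 := (hC0 c₀.1 c₀.2).resolve_right (by simpa using hq)
    rw [hq, zpow_zero, mul_one, sub_eq_zero] at hGH
    have halg : IsAlgebraic k (g ^ c₀.1.1) := by
      rw [hGH]
      exact isAlgebraic_algebraMap _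
    apply hg
    obtain ⟨m, hm | hm⟩ := c₀.1.1.eq_nat_or_neg
    · rw [hm, zpow_natCast] at halg
      have hm0 : 0 < m := Nat.pos_of_ne_zero fun h => hp (by rw [hm, h]; rfl)
      exact IsAlgebraic.of_pow hm0 halg
    · rw [hm, zpow_neg, zpow_natCast] at halg
      have hm0 : 0 < m := Nat.pos_of_ne_zero fun h => hp (by rw [hm, h]; rfl)
      have := halg.inv
      rw [inv_inv] at this
      exact IsAlgebraic.of_pow hm0 this
  · rw [sub_eq_zero.1 hGH, ← map_pow, hη1, map_one]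

end Pool.Agent.Helper79.QP
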