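import Pool.Agent.Helper79.QP.Lang
import Pool.Agent.Helper79.QP.Coc
import Pool.Agent.Helper79.FE.Rst

set_option autoImplicit false

/-!
# Families of classes over an algebraically closed field
-/

namespace Pool.Agent.Helper79.QP

open scoped WithZero
open Polynomial IntermediateField Module
open Pool.Agent.TH826.MK (KQ symb KQ.map KQ.map_symb unitPart)
open Pool.Agent.Helper537_Sym
open Pool.Agent.Helper79.FE (VN exists_zero finite_zeros fin_adj val_alg supp_finite tame_tors unitPart_swap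
  sy_tors_right fin_of_ker unram_map)
open Pool.Agent.Helper79.BT (kmap_comp)

/-- the elements of the span of the image of a homomorphism -/
theorem span_hom {G : Type*} [CommGroup G] {V : Type*} [AddCommGroup V] [Module ℚ V] (φ : G → V)
    (hφ : ∀ a b, φ (a * b) = φ a + φ b) (z : V) (hz : z ∈ Submodule.span ℚ (Set.range φ)) :
    ∃ (q : ℚ) (u : G), z = q • φ u := by
  have h1 : φ 1 = 0 := by
    have := hφ 1 1
    rw [mul_one] at this
    exact left_eq_add.1 this
  let ψ : Additive G →+ V := { toFun := fun x => φ x.toMul, map_zero' := h1, map_add' := fun a b => hφ _ _ }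
  have hzp : ∀ (u : G) (k : ℤ), φ (u ^ k) = (k : ℚ) • φ u := by
    intro u k
    have h2 := map_zsmul ψ k (Additive.ofMul u)
    have h3 : φ (u ^ k) = k • φ u := h2
    rw [h3, Int.cast_smul_eq_zsmul]
  induction hz using Submodule.span_induction with
  | mem x hx =>
    obtain ⟨u, rfl⟩ := hx
    exact ⟨1, u, by rw [one_smul]⟩
  | zero => exact ⟨0, 1, by rw [zero_smul]⟩
  | add x y _ _ hx hy =>
    obtain ⟨q, u, rfl⟩ := hx
    obtain ⟨r, w, rfl⟩ := hy
    refine ⟨((q.den : ℚ) * r.den)⁻¹, u ^ (q.num * r.den) * w ^ (r.num * q.den), ?_⟩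
    rw [hφ, hzp, hzp, smul_add, smul_smul, smul_smul]
    have hq : (q.den : ℚ) ≠ 0 := by exact_mod_cast q.den_nz
    have hr : (r.den : ℚ) ≠ 0 := by exact_mod_cast r.den_nz
    have hq2 : (q.num : ℚ) = q * q.den := (Rat.mul_den_eq_num q).symm
    have hr2 : (r.num : ℚ) = r * r.den := (Rat.mul_den_eq_num r).symm
    congr 2
    · push_cast
      rw [hq2]
      field_simp
    · push_cast
      rw [hr2]
      field_simp
  | smul a x _ hx =>
    obtain ⟨q, u, rfl⟩ := hx
    exact ⟨a * q, u, by rw [smul_smul]⟩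

section

variable {k F L M : Type*} [Field k] [Field F] [Field L] [Field M] [Algebra k F] [Algebra k L] [Algebra F L]
  [Algebra k M] [Algebra F M] [Algebra L M] [IsScalarTower k F L] [IsScalarTower k L M] [IsScalarTower F L M]
  [IsScalarTower k F M]

/-- the image of a unit -/
noncomputable def up (A B : Type*) [Field A] [Field B] [Algebra A B] (u : Aˣ) : Bˣ :=
  Units.map (algebraMap A B : A →* B) u

theorem up_mul {A B : Type*} [Field A] [Field B] [Algebra A B] (u w : Aˣ) : up A B (u * w) = up A B u * up A B w :=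
  map_mul _ _ _

theorem up_val {A B : Type*} [Field A] [Field B] [Algebra A B] (u : Aˣ) : (up A B u : B) = algebraMap A B u := rfl

/-- the subgroup of the second entries -/
noncomputable def UU (k : Type*) {F L : Type*} (M : Type*) [Field k] [Field F] [Field L] [Field M] [Algebra k M] [Algebra F M]
    [Algebra L M] (f : Lˣ) : Subgroup Fˣ where
  carrier := {u | ∀ σ : M ≃ₐ[F] M, ∀ v ∈ VN k M, sy (gg (up L M f) σ) (up F M u) ∈ unitPart v 2}
  one_mem' := fun σ v _ => by
    have : up F M (1 : Fˣ) = 1 := map_one _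
    rw [this, sy_one_right]; exact Submodule.zero_mem _
  mul_mem' := fun {a b} ha hb σ v hv => by
    rw [up_mul, sy_mul_right]
    exact Submodule.add_mem _ (ha σ v hv) (hb σ v hv)
  inv_mem' := fun {a} ha σ v hv => by
    have : up F M a⁻¹ = (up F M a)⁻¹ := map_inv _ _
    rw [this, sy_inv_right]
    exact Submodule.neg_mem _ (ha σ v hv)

/-- an algebraic element over an algebraically closed field is a constant -/
theorem alg_const [IsAlgClosed k] {x : M} (hx : IsAlgebraic k x) : ∃ c : k, algebraMap k M c = x := by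
  have h1 : (minpoly k x).natDegree = 1 := by
    have h2 := IsAlgClosed.degree_eq_one_of_irreducible k (minpoly.irreducible hx.isIntegral)
    exact natDegree_eq_of_degree_eq_some h2
  exact minpoly.natDegree_eq_one_iff.1 h1

theorem main_aux [IsAlgClosed k] (ι : k →+* ℂ) [FiniteDimensional F M] [IsGalois F M] (X : M)
    (hX : Transcendental k X) [FiniteDimensional k⟮X⟯ M] (f : Lˣ)
    (hf : ∀ m : ℕ, 0 < m → (minpoly F ((f : L) ^ m)).natDegree ≠ 2)
    (hnp : ¬ ∃ m : ℕ, 0 < m ∧ ∃ c : F, algebraMap F L c = (f : L) ^ m) :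
    FiniteDimensional ℚ (Submodule.span ℚ (Set.range fun u : Additive (UU k M f : Subgroup Fˣ) =>
      sy f (up F L (u.toMul : Fˣ)))) := by
  classical
  have : CharZero k := RingHom.charZero ι
  have : CharZero M := charZero_of_injective_algebraMap (algebraMap k M).injective
  have : Fintype (M ≃ₐ[F] M) := Fintype.ofFinite _
  set fM := up L M f with hfM
  -- not all quotients are torsion
  have hnt : ¬ ∀ σ : M ≃ₐ[F] M, ∃ n : ℕ, 0 < n ∧ gg fM σ ^ n = 1 := by
    intro h
    choose n hn h1 using h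
    apply hnp
    set m := ∏ σ, n σ with hm
    have hm0 : 0 < m := Finset.prod_pos fun σ _ => hn σ
    have h2 : (fM : M) ^ m ∈ (⊥ : IntermediateField F M) := by
      rw [IsGalois.mem_bot_iff_fixed]
      intro σ
      have h3 : gg fM σ ^ m = 1 := by
        obtain ⟨j, hj⟩ := Finset.dvd_prod_of_mem n (Finset.mem_univ σ)
        rw [hm, hj, pow_mul, h1, one_pow]
      have h4 : Units.map (σ : M →* M) fM = gg fM σ * fM := by rw [gg, inv_mul_cancel_right]
      have h5 : Units.map (σ : M →* M) (fM ^ m) = fM ^ m := by rw [map_pow, h4, mul_pow, h3, one_mul]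
      have h6 := congrArg Units.val h5
      simpa using h6
    obtain ⟨c, hc⟩ := IntermediateField.mem_bot.1 h2
    refine ⟨m, hm0, c, ?_⟩
    apply (algebraMap L M).injective
    rw [← IsScalarTower.algebraMap_apply, hc, map_pow]
    rfl
  -- a nonconstant quotient
  obtain ⟨σ₀, hσ₀⟩ : ∃ σ₀ : M ≃ₐ[F] M, Transcendental k (gg fM σ₀ : M) := by
    by_contra hcon
    push Not at hcon
    apply hnt
    have hc : ∀ σ : M ≃ₐ[F] M, ∃ c : k, algebraMap k M c = (gg fM σ : M) := fun σ =>
      alg_const (by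
        by_contra h
        exact hcon σ h)
    have hmul : ∀ τ σ : M ≃ₐ[F] M, gg fM (τ * σ) = gg fM τ * gg fM σ := by
      intro τ σ
      rw [gg_mul, mul_comm]
      congr 1
      apply Units.ext
      obtain ⟨c, hc⟩ := hc σ
      show τ (gg fM σ : M) = _
      rw [← hc, IsScalarTower.algebraMap_apply k F M]
      exact τ.commutes _
    have h1 : gg fM (1 : M ≃ₐ[F] M) = 1 := by
      have := hmul 1 1
      rw [mul_one] at this
      exact left_eq_mul.1 this
    intro σ
    have hpow : ∀ n : ℕ, gg fM (σ ^ n) = gg fM σ ^ n := by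
      intro n
      induction n with
      | zero => rw [pow_zero, pow_zero, h1]
      | succ n ih => rw [pow_succ, hmul, ih, pow_succ]
    refine ⟨Nat.card (M ≃ₐ[F] M), Nat.card_pos, ?_⟩
    rw [← hpow, pow_card_eq_one', h1]
  have hfd0 : FiniteDimensional k⟮(gg fM σ₀ : M)⟯ M := fin_adj X _ hX hσ₀
  obtain ⟨w₀, hw₀, hw₀lt⟩ := exists_zero (gg fM σ₀ : M) hσ₀
  have hord : ord w₀ (gg fM σ₀) ≠ 0 := fun h => hw₀lt.ne (ord_eq_zero h)
  -- an independent quotient
  obtain ⟨σ₁, hσ₁⟩ : ∃ σ₁ : M ≃ₐ[F] M, ∀ (p q : ℤ) (n : ℕ), q ≠ 0 → 0 < n →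
      (gg fM σ₀ ^ p * gg fM σ₁ ^ q) ^ n ≠ 1 := by
    by_contra hcon
    push Not at hcon
    obtain ⟨m, hm, h1⟩ := quad_of_line fM σ₀ (ord w₀) (ord_mul w₀) hord (by
      intro σ
      obtain ⟨p, q, n, hq, hn, h⟩ := hcon σ
      exact ⟨p, q, n, hq, hn, h⟩)
    apply hf m hm
    rw [← h1]
    have e : (fM : M) ^ m = algebraMap L M ((f : L) ^ m) := by rw [map_pow]; rfl
    rw [e, minpoly.algebraMap_eq (algebraMap L M).injective]
  -- the finite set of places
  set S : Set (Valuation M ℤᵐ⁰) := {w | w ∈ VN k M ∧ (∃ n : ℕ, 0 < n ∧ w ((gg fM σ₀ : M) ^ n - 1) < 1) ∧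
    ∃ n : ℕ, 0 < n ∧ w ((gg fM σ₁ : M) ^ n - 1) < 1} with hS
  have hSfin : S.Finite := by
    by_contra hinf
    obtain ⟨p, q, n, hq, hn, h⟩ := lang_pair ι (gg fM σ₀ : M) (gg fM σ₁ : M) hσ₀ (gg fM σ₁).ne_zero S
      (fun w hw => hw.1) hinf (fun w hw => hw.2)
    refine hσ₁ p q n hq hn (Units.ext ?_)
    push_cast
    exact h
  set T : Set (Valuation M ℤᵐ⁰) := S ∪ {w ∈ VN k M | w (gg fM σ₀ : M) ≠ 1} ∪
    {w ∈ VN k M | w (gg fM σ₁ : M) ≠ 1} with hT
  have hTfin : T.Finite := (hSfin.union (supp_finite X hX _ (gg fM σ₀).ne_zero)).union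
    (supp_finite X hX _ (gg fM σ₁).ne_zero)
  have hTf : Finite T := hTfin
  have hval : ∀ u : Fˣ, u ∈ (UU k M f : Subgroup Fˣ) → ∀ v ∈ VN k M, v ∉ T → v (up F M u : M) = 1 := by
    intro u hu v hv hvT
    by_contra hne
    have h0 : v (gg fM σ₀ : M) = 1 := by
      by_contra h
      exact hvT (Or.inl (Or.inr ⟨hv, h⟩))
    have h1 : v (gg fM σ₁ : M) = 1 := by
      by_contra h
      exact hvT (Or.inr ⟨hv, h⟩)
    exact hvT (Or.inl (Or.inl ⟨hv, tame_tors v _ _ (hu σ₀ v hv) h0 hne, tame_tors v _ _ (hu σ₁ v hv) h1 hne⟩))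
  let φ : Additive (UU k M f : Subgroup Fˣ) →+ KQ L 2 :=
    { toFun := fun u => sy f (up F L (u.toMul : Fˣ))
      map_zero' := by
        have : up F L (1 : Fˣ) = 1 := map_one _
        show sy f (up F L (1 : Fˣ)) = 0
        rw [this, sy_one_right]
      map_add' := fun a b => by
        show sy f (up F L ((a.toMul : Fˣ) * (b.toMul : Fˣ))) = _
        rw [up_mul, sy_mul_right] }
  let ψ : Additive (UU k M f : Subgroup Fˣ) →+ (T → ℚ) :=
    { toFun := fun u t => ((ord t.1 (up F M (u.toMul : Fˣ)) : ℤ) : ℚ)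
      map_zero' := by
        funext t
        have : up F M (1 : Fˣ) = 1 := map_one _
        show ((ord t.1 (up F M (1 : Fˣ)) : ℤ) : ℚ) = 0
        rw [this, ord_of_one (by rw [Units.val_one, map_one]), Int.cast_zero]
      map_add' := fun a b => by
        funext t
        show ((ord t.1 (up F M ((a.toMul : Fˣ) * (b.toMul : Fˣ))) : ℤ) : ℚ) = _
        rw [up_mul, ord_mul, Int.cast_add]
        rfl }
  refine fin_of_ker φ ψ ?_
  intro a ha
  set u : Fˣ := (a.toMul : Fˣ) with hu
  have hmem : u ∈ (UU k M f : Subgroup Fˣ) := a.toMul.2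
  have hone : ∀ v ∈ VN k M, v (up F M u : M) = 1 := by
    intro v hv
    by_cases hvT : v ∈ T
    · have h1 : ((ord v (up F M u) : ℤ) : ℚ) = 0 := congrFun ha ⟨v, hvT⟩
      exact ord_eq_zero (by exact_mod_cast h1)
    · exact hval u hmem v hv hvT
  have halg : IsAlgebraic k (up F M u : M) := by
    by_contra htr
    have : FiniteDimensional k⟮(up F M u : M)⟯ M := fin_adj X _ hX htr
    obtain ⟨v, hv, hlt⟩ := exists_zero (up F M u : M) htr
    rw [hone v hv] at hlt
    exact lt_irrefl _ hlt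
  obtain ⟨n, hn, h1⟩ := tame_tors w₀ (up F M u) (gg fM σ₀) (unitPart_swap w₀ _ _ (hmem σ₀ w₀ hw₀)) (hone w₀ hw₀)
    hw₀lt.ne
  have h2 : (up F M u : M) ^ n - 1 = 0 := by
    by_contra h0
    have h3 := val_alg hw₀ h0 ((halg.pow n).sub isAlgebraic_one)
    rw [h3] at h1
    exact lt_irrefl _ h1
  have h3 : u ^ n = 1 := by
    apply Units.ext
    apply (algebraMap F M).injective
    rw [Units.val_pow_eq_pow_val, map_pow, Units.val_one, map_one]
    exact sub_eq_zero.1 h2
  refine sy_tors_right f (up F L u) n hn ?_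
  have : up F L (u ^ n) = up F L u ^ n := map_pow _ _ _
  rw [← this, h3]
  exact map_one _

/-- the second entry of an unramified class -/
theorem mem_UU [FiniteDimensional F M] [IsGalois F M] (f : Lˣ) (q : ℚ) (hq : q ≠ 0) (u : Fˣ) (β : KQ L 2)
    (hβ : β ∈ LinearMap.range (KQ.map 2 (algebraMap F L)))
    (hun : q • sy f (up F L u) + β ∈ ⨅ v ∈ VN k L, unitPart v 2) : u ∈ (UU k M f : Subgroup Fˣ) := by
  have h1 : sy f (up F L u) + q⁻¹ • β ∈ ⨅ v ∈ VN k L, unitPart v 2 := by
    have h2 := Submodule.smul_mem _ (q⁻¹) hun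
    rwa [smul_add, smul_smul, inv_mul_cancel₀ hq, one_smul] at h2
  obtain ⟨γ, hγ⟩ : q⁻¹ • β ∈ LinearMap.range (KQ.map 2 (algebraMap F L)) := Submodule.smul_mem _ _ hβ
  rw [← hγ] at h1
  have hmap : ∀ (g : L →+* M), (∀ x : k, ∃ y : k, g (algebraMap k L x) = algebraMap k M y) →
      (g.comp (algebraMap F L) = algebraMap F M) →
      sy (Units.map (g : L →* M) f) (up F M u) + KQ.map 2 (algebraMap F M) γ ∈
        ⨅ v ∈ VN k M, unitPart v 2 := by
    intro g hg hgF
    have h3 := unram_map g hg h1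
    rw [map_add, ← kmap_comp, hgF] at h3
    have e : KQ.map 2 g (sy f (up F L u)) = sy (Units.map (g : L →* M) f) (up F M u) := by
      show KQ.map 2 g (symb ![f, up F L u]) = _
      rw [KQ.map_symb]
      congr 1
      funext i
      fin_cases i
      · rfl
      · apply Units.ext
        show g (algebraMap F L u) = algebraMap F M u
        rw [← hgF]
        rfl
    rw [e] at h3
    exact h3
  intro σ v hv
  have h4 := hmap (algebraMap L M) (fun x => ⟨x, (IsScalarTower.algebraMap_apply k L M x).symm⟩)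
    (IsScalarTower.algebraMap_eq F L M).symm
  have h5 := hmap ((σ : M →+* M).comp (algebraMap L M)) (fun x => ⟨x, by
      show σ (algebraMap L M (algebraMap k L x)) = _
      rw [← IsScalarTower.algebraMap_apply, IsScalarTower.algebraMap_apply k F M]
      exact σ.commutes _⟩)
    (RingHom.ext fun x => by
      show σ (algebraMap L M (algebraMap F L x)) = _
      rw [← IsScalarTower.algebraMap_apply]
      exact σ.commutes _)
  have h6 := Submodule.sub_mem _ h5 h4
  rw [add_sub_add_right_eq_sub] at h6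
  have e : sy (gg (up L M f) σ) (up F M u) =
      sy (Units.map (((σ : M →+* M).comp (algebraMap L M) : L →+* M) : L →* M) f) (up F M u) -
      sy (Units.map ((algebraMap L M : L →+* M) : L →* M) f) (up F M u) := by
    rw [gg, sy_mul_left, sy_inv_left, ← sub_eq_add_neg]
    rfl
  rw [e]
  have h7 := (Submodule.mem_iInf _).1 h6 v
  exact (Submodule.mem_iInf _).1 h7 hv

/-- the classes modulo the classes of the subfield -/
theorem quot_fin [IsAlgClosed k] (ι : k →+* ℂ) [FiniteDimensional F M] [IsGalois F M] (X : M)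
    (hX : Transcendental k X) [FiniteDimensional k⟮X⟯ M] (f : Lˣ)
    (hf : ∀ m : ℕ, 0 < m → (minpoly F ((f : L) ^ m)).natDegree ≠ 2) :
    FiniteDimensional ℚ ↥(((Submodule.span ℚ (Set.range fun u : Fˣ => sy f (up F L u)) ⊔
      LinearMap.range (KQ.map 2 (algebraMap F L))) ⊓ ⨅ v ∈ VN k L, unitPart v 2).map
        (LinearMap.range (KQ.map 2 (algebraMap F L))).mkQ) := by
  classical
  set R := LinearMap.range (KQ.map 2 (algebraMap F L)) with hR
  by_cases hnp : ∃ m : ℕ, 0 < m ∧ ∃ c : F, algebraMap F L c = (f : L) ^ m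
  · obtain ⟨m, hm, c, hc⟩ := hnp
    have hle : Submodule.span ℚ (Set.range fun u : Fˣ => sy f (up F L u)) ≤ R := by
      rw [Submodule.span_le]
      rintro _ ⟨u, rfl⟩
      have hc0 : c ≠ 0 := by
        rintro rfl
        rw [map_zero] at hc
        exact pow_ne_zero m f.ne_zero hc.symm
      have h1 : sy (f ^ m) (up F L u) ∈ R := by
        refine ⟨sy (Units.mk0 c hc0) u, ?_⟩
        show KQ.map 2 (algebraMap F L) (symb ![Units.mk0 c hc0, u]) = _
        rw [KQ.map_symb]
        congr 1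
        funext i
        fin_cases i
        · apply Units.ext
          show algebraMap F L c = ((f ^ m : Lˣ) : L)
          rw [hc, Units.val_pow_eq_pow_val]
        · rfl
      rw [sy_pow_left] at h1
      have h2 := R.smul_mem ((m : ℚ)⁻¹) h1
      rwa [smul_smul, inv_mul_cancel₀ (by exact_mod_cast hm.ne'), one_smul] at h2
    have hbot : ((Submodule.span ℚ (Set.range fun u : Fˣ => sy f (up F L u)) ⊔ R) ⊓
        ⨅ v ∈ VN k L, unitPart v 2).map R.mkQ = ⊥ := by
      rw [eq_bot_iff]
      rintro _ ⟨z, ⟨hz, -⟩, rfl⟩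
      have : z ∈ R := (sup_le hle le_rfl) hz
      rw [Submodule.mem_bot, Submodule.mkQ_apply, Submodule.Quotient.mk_eq_zero]
      exact this
    rw [hbot]
    infer_instance
  · have hW := main_aux (F := F) (L := L) ι X hX f hf hnp
    set W := Submodule.span ℚ (Set.range fun u : Additive (UU k M f : Subgroup Fˣ) =>
      sy f (up F L (u.toMul : Fˣ))) with hWdef
    have hle : ((Submodule.span ℚ (Set.range fun u : Fˣ => sy f (up F L u)) ⊔ R) ⊓
        ⨅ v ∈ VN k L, unitPart v 2).map R.mkQ ≤ W.map R.mkQ := by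
      rintro _ ⟨z, ⟨hz, hun⟩, rfl⟩
      obtain ⟨a, ha, β, hβ, rfl⟩ := Submodule.mem_sup.1 hz
      obtain ⟨q, u, rfl⟩ := span_hom (fun u : Fˣ => sy f (up F L u)) (fun a b => by
        rw [up_mul, sy_mul_right]) a ha
      have hβ0 : R.mkQ β = 0 := by
        rw [Submodule.mkQ_apply, Submodule.Quotient.mk_eq_zero]
        exact hβ
      rw [map_add, hβ0, add_zero]
      by_cases hq : q = 0
      · rw [hq, zero_smul, map_zero]
        exact Submodule.zero_mem _
      · refine ⟨q • sy f (up F L u), Submodule.smul_mem _ _ (Submodule.subset_span ?_), rfl⟩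
        have hu := mem_UU (k := k) (M := M) f q hq u β hβ hun
        exact ⟨Additive.ofMul ⟨u, hu⟩, rfl⟩
    have : FiniteDimensional ℚ ↥(W.map R.mkQ) := inferInstance
    exact Submodule.finiteDimensional_of_le hle

end

end Pool.Agent.Helper79.QP
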