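import Pool.Agent.Helper79.QP.Rel

set_option autoImplicit false

/-!
# The relative theorem for intermediate fields
-/

namespace Pool.Agent.Helper79.QP

open scoped WithZero
open Polynomial IntermediateField Module
open Pool.Agent.TH826.MK (KQ symb KQ.map KQ.map_symb unitPart)
open Pool.Agent.Helper537_Sym
open Pool.Agent.Helper79.FE (VN)

universe u

theorem rel_inter {K k : Type*} {L : Type u} [Field K] [NumberField K] [Field k] [Algebra K k]
    (hk : ∀ x : k, ∃ (n : ℕ) (ζ : AlgebraicClosure k), 0 < n ∧ ζ ^ n = 1 ∧
      algebraMap k (AlgebraicClosure k) x ∈ IntermediateField.adjoin K {ζ})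
    [Field L] [Algebra k L] (hcl : ∀ x : L, IsAlgebraic k x → ∃ c : k, algebraMap k L c = x) (x : L)
    (hx : Transcendental k x) [FiniteDimensional k⟮x⟯ L] (F : IntermediateField k L) [FiniteDimensional F L]
    (f : Lˣ) :
    FiniteDimensional ℚ ↥(((Submodule.span ℚ (Set.range fun u : Fˣ => sy f (up F L u)) ⊔
      LinearMap.range (KQ.map 2 (algebraMap F L))) ⊓ ⨅ v ∈ VN k L, unitPart v 2).map
        (LinearMap.range (KQ.map 2 (algebraMap F L))).mkQ) := by
  have : CharZero k := charZero_of_injective_algebraMap (algebraMap K k).injective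
  have : CharZero L := charZero_of_injective_algebraMap (algebraMap k L).injective
  let Ω := AlgebraicClosure L
  have h1 : Algebra.IsAlgebraic F Ω := Algebra.IsAlgebraic.trans F L Ω
  have h2 : IsAlgClosure F Ω := ⟨inferInstance, h1⟩
  have h3 : Normal F Ω := IsAlgClosure.normal F Ω
  let M := normalClosure F L Ω
  have i2 : IsScalarTower F L M := inferInstance
  have i3 : FiniteDimensional F M := inferInstance
  have i7 : IsScalarTower k F M := inferInstance
  have i8 : IsScalarTower k L M := IsScalarTower.of_algebraMap_eq fun x => Subtype.ext rfl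
  have i4 : Normal F M := inferInstance
  have i5 : IsGalois F M := ⟨⟩
  have i6 : FiniteDimensional L M := FiniteDimensional.right F L M
  have hX : Transcendental k (algebraMap L M x) := by
    intro h
    exact hx ((isAlgebraic_algebraMap_iff (algebraMap L M).injective).1 h)
  have i9 : FiniteDimensional k⟮algebraMap L M x⟯ M := fin_up x
  exact rel_aux (M := M) hk hcl (algebraMap L M x) hX f

end Pool.Agent.Helper79.QP
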